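import Pool.Agent.BEG.Stmts
import Pool.Agent.Helper72_BE01.Alg

/-!
# Squad BEG (MP_be01ff_an), row ALK: the algebra of the bounded elements of a subspace
-/

namespace Pool.Agent.BEG.H29

open Set Filter Topology MeasureTheory
open scoped InnerProductSpace ENNReal
open Pool.Agent.BE01 Pool.Agent.BE01.H72

noncomputable section

section res

variable {X0 Y0 H0 : Type} [NormedCommRing X0] [NormedAlgebra ℝ X0] [NormedAddCommGroup Y0]
  [NormedSpace ℝ Y0] [NormedAddCommGroup H0] [InnerProductSpace ℝ H0]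

/-- The inclusion of a subalgebra. -/
def inX (XS : Subalgebra ℝ X0) : XS →L[ℝ] X0 :=
  { XS.val.toLinearMap with cont := continuous_subtype_val }

theorem inX_apply (XS : Subalgebra ℝ X0) (x : XS) : inX XS x = (x : X0) := rfl

/-- The restricted product on `Y`. -/
def resY (A0 : Alg X0 Y0 H0) (XS : Subalgebra ℝ X0) (YS : Submodule ℝ Y0)
    (hmY : ∀ x ∈ XS, ∀ y ∈ YS, A0.mY x y ∈ YS) : XS →L[ℝ] YS →L[ℝ] YS :=
  LinearMap.mkContinuous₂
    (LinearMap.mk₂ ℝ (fun (x : XS) (y : YS) => (⟨A0.mY x y, hmY x x.2 y y.2⟩ : YS))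
      (fun x x' y => by
        apply Subtype.ext
        simp)
      (fun c x y => by
        apply Subtype.ext
        simp)
      (fun x y y' => by
        apply Subtype.ext
        simp)
      (fun c x y => by
        apply Subtype.ext
        simp)) 1
    (fun x y => by
      rw [one_mul]
      exact A0.nY x y)

/-- The restricted product on `H`. -/
def resH (A0 : Alg X0 Y0 H0) (XS : Subalgebra ℝ X0) (KS : Submodule ℝ H0)
    (hmH : ∀ x ∈ XS, ∀ y ∈ KS, A0.mH x y ∈ KS) : XS →L[ℝ] KS →L[ℝ] KS :=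
  LinearMap.mkContinuous₂
    (LinearMap.mk₂ ℝ (fun (x : XS) (y : KS) => (⟨A0.mH x y, hmH x x.2 y y.2⟩ : KS))
      (fun x x' y => by
        apply Subtype.ext
        simp)
      (fun c x y => by
        apply Subtype.ext
        simp)
      (fun x y y' => by
        apply Subtype.ext
        simp)
      (fun c x y => by
        apply Subtype.ext
        simp)) 1
    (fun x y => by
      rw [one_mul]
      exact A0.nH x y)

/-- The restricted product of two elements of `Y`. -/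
def resB (A0 : Alg X0 Y0 H0) (YS : Submodule ℝ Y0) (KS : Submodule ℝ H0)
    (hB : ∀ x ∈ YS, ∀ y ∈ YS, A0.B x y ∈ KS) : YS →L[ℝ] YS →L[ℝ] KS :=
  LinearMap.mkContinuous₂
    (LinearMap.mk₂ ℝ (fun (x : YS) (y : YS) => (⟨A0.B x y, hB x x.2 y y.2⟩ : KS))
      (fun x x' y => by
        apply Subtype.ext
        simp)
      (fun c x y => by
        apply Subtype.ext
        simp)
      (fun x y y' => by
        apply Subtype.ext
        simp)
      (fun c x y => by
        apply Subtype.ext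
        simp)) 1
    (fun x y => by
      rw [one_mul]
      exact A0.nB x y)

/-- The restricted structure. -/
def resAlg (A0 : Alg X0 Y0 H0) (XS : Subalgebra ℝ X0) (YS : Submodule ℝ Y0)
    (KS : Submodule ℝ H0) (hi : ∀ x ∈ XS, A0.i x ∈ YS) (hj : ∀ y ∈ YS, A0.j y ∈ KS)
    (hmY : ∀ x ∈ XS, ∀ y ∈ YS, A0.mY x y ∈ YS) (hmH : ∀ x ∈ XS, ∀ h ∈ KS, A0.mH x h ∈ KS)
    (hB : ∀ y ∈ YS, ∀ y' ∈ YS, A0.B y y' ∈ KS) : Alg XS YS KS where
  i := (A0.i.comp (inX XS)).codRestrict YS (fun x => hi x x.2)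
  j := (A0.j.comp YS.subtypeL).codRestrict KS (fun y => hj y y.2)
  mY := resY A0 XS YS hmY
  mH := resH A0 XS KS hmH
  B := resB A0 YS KS hB
  i_inj := fun x x' h => Subtype.ext (A0.i_inj (congrArg Subtype.val h))
  j_inj := fun y y' h => Subtype.ext (A0.j_inj (congrArg Subtype.val h))
  one_mY := fun y => Subtype.ext (A0.one_mY y)
  one_mH := fun h => Subtype.ext (A0.one_mH h)
  mul_mY := fun x x' y => Subtype.ext (A0.mul_mY x x' y)
  mul_mH := fun x x' y => Subtype.ext (A0.mul_mH x x' y)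
  mY_i := fun x x' => Subtype.ext (A0.mY_i x x')
  j_mY := fun x y => Subtype.ext (A0.j_mY x y)
  B_symm := fun y y' => Subtype.ext (A0.B_symm y y')
  B_i := fun x y => Subtype.ext (A0.B_i x y)
  B_mY := fun x y y' => Subtype.ext (A0.B_mY x y y')
  nY := fun x y => A0.nY x y
  nH := fun x h => A0.nH x h
  nB := fun y y' => A0.nB y y'

end res

variable {T : Type} [MeasurableSpace T] {μ : Measure T} [IsFiniteMeasure μ]

theorem lift_ex (h : Lp ℝ 2 μ) (C : ℝ) (hC : 0 ≤ C) (hb : ∀ᵐ z ∂μ, |h z| ≤ C) :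
    ∃ x : Lp ℝ ∞ μ, (@Alg.e _ _ _ (ringX μ) (algX μ) _ _ _ _ (AA μ)) x = h ∧ ‖x‖ ≤ C := by
  have hm : MemLp h ∞ μ := memLp_top_of_bound (Lp.aestronglyMeasurable h) C
    (by simpa only [Real.norm_eq_abs] using hb)
  refine ⟨hm.toLp h, ?_, ?_⟩
  · apply ext_ae
    exact (e_ae (hm.toLp h)).trans (MemLp.coeFn_toLp hm)
  · have h1 := Lp.norm_le_of_ae_bound (f := hm.toLp h) hC (by
      filter_upwards [MemLp.coeFn_toLp hm, hb] with z h1 h2
      rw [h1, Real.norm_eq_abs]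
      exact h2)
    simpa using h1

/-- ALK. -/
theorem alk : AlkStmt := by
  intro T _ μ _ K hK hone hmul
  letI := ringX μ
  letI := algX μ
  let A0 : Alg (Lp ℝ ∞ μ) (Lp ℝ 4 μ) (Lp ℝ 2 μ) := AA μ
  have he : ∀ x : Lp ℝ ∞ μ, A0.e x =ᵐ[μ] x := fun x => e_ae x
  have hj : ∀ y : Lp ℝ 4 μ, A0.j y =ᵐ[μ] y := fun y => inc_ae (by norm_num) y
  have hmm : ∀ x x' : Lp ℝ ∞ μ, A0.e (x * x') =ᵐ[μ] fun z => A0.e x z * A0.e x' z := by
    intro x x'
    filter_upwards [he (x * x'), he x, he x', mul_ae x x'] with z h1 h2 h3 h4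
    rw [h2, h3, ← h4, h1]
    rfl
  have ho : A0.e 1 =ᵐ[μ] fun _ => 1 := by
    filter_upwards [he (oneX : Lp ℝ ∞ μ), oneX_ae (μ := μ)] with z h1 h2
    rw [← h2, ← h1]
    rfl
  let XS : Subalgebra ℝ (Lp ℝ ∞ μ) :=
    { carrier := {x | A0.e x ∈ K}
      mul_mem' := fun {x x'} hx hx' => hmul _ _ _ hx hx' (hmm x x')
      add_mem' := fun {x x'} hx hx' => by
        show A0.e (x + x') ∈ K
        rw [map_add]
        exact K.add_mem hx hx'
      algebraMap_mem' := fun r => by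
        show A0.e (algebraMap ℝ (Lp ℝ ∞ μ) r) ∈ K
        rw [Algebra.algebraMap_eq_smul_one, map_smul]
        exact K.smul_mem r (hone _ ho) }
  let YS : Submodule ℝ (Lp ℝ 4 μ) := K.comap (A0.j : Lp ℝ 4 μ →ₗ[ℝ] Lp ℝ 2 μ)
  have hYmem : ∀ y, y ∈ YS ↔ A0.j y ∈ K := fun y => Iff.rfl
  have hXmem : ∀ x, x ∈ XS ↔ A0.e x ∈ K := fun x => Iff.rfl
  have hcl : IsClosed (XS : Set (Lp ℝ ∞ μ)) := hK.preimage A0.e.continuous
  have hmH : ∀ x ∈ XS, ∀ h ∈ K, A0.mH x h ∈ K := by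
    intro x hx h hh
    refine hmul (A0.e x) h _ hx hh ?_
    filter_upwards [he x, hL_ae ∞ 2 2 x h] with z h1 h2
    rw [h1, ← h2]
    rfl
  have hB : ∀ y ∈ YS, ∀ y' ∈ YS, A0.B y y' ∈ K := by
    intro y hy y' hy'
    refine hmul (A0.j y) (A0.j y') _ hy hy' ?_
    filter_upwards [hj y, hj y', hL_ae 4 4 2 y y'] with z h1 h2 h3
    rw [h1, h2, ← h3]
    rfl
  have hmY : ∀ x ∈ XS, ∀ y ∈ YS, A0.mY x y ∈ YS := by
    intro x hx y hy
    rw [hYmem, A0.j_mY]
    exact hmH x hx _ hy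
  have hcomp : CompleteSpace XS := hcl.completeSpace_coe
  refine ⟨XS, inferInstance, inferInstance, hcomp, YS,
    resAlg A0 XS YS K (fun x hx => hx) (fun y hy => hy) hmY hmH hB, ?_, ?_, ?_, ?_, ?_, ?_, ?_⟩
  · exact hK.preimage A0.j.continuous
  · intro y h hh hy
    rw [hYmem]
    have h1 : A0.j y = h := ext_ae ((hj y).trans hy.symm)
    rw [h1]
    exact hh
  · intro y
    exact hj y
  · intro x
    filter_upwards [he (x : Lp ℝ ∞ μ), bd_ae (x : Lp ℝ ∞ μ)] with z h1 h2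
    exact (congrArg abs h1).trans_le h2
  · intro h C hC hb
    obtain ⟨x, hx1, hx2⟩ := lift_ex (h : Lp ℝ 2 μ) C hC hb
    have hx : x ∈ XS := by
      rw [hXmem]
      show (@Alg.e _ _ _ (ringX μ) (algX μ) _ _ _ _ (AA μ)) x ∈ K
      rw [hx1]
      exact h.2
    exact ⟨⟨x, hx⟩, Subtype.ext hx1, hx2⟩
  · intro x x'
    exact hmm x x'
  · exact ho

end

end Pool.Agent.BEG.H29
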