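import Pool.Agent.BEG.Stmts

/-!
# Squad BEG (MP_be01ff_an), row THG: the Sobolev space and an isometry
-/

namespace Pool.Agent.BEG.H29

open Set Filter Topology MeasureTheory
open scoped InnerProductSpace ENNReal
open Pool.Agent.BE01

noncomputable section

/-- THG. -/
theorem thg (mgp : MgpStmt) (tgt : TgtStmt) : ThgStmt := by
  intro d Ω g u u' F F' hΩ hg hu hu' hF'
  obtain ⟨hmp, -, -, -, -, -⟩ := mgp d Ω g hΩ hg
  let L : En d →L[ℝ] En d := (g.1.symm.toContinuousLinearEquiv : En d →L[ℝ] En d)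
  have hL : ∀ v, L v = g.1.symm v := fun v => rfl
  let Φ : Lp ℝ 2 (mu Ω) × Lp (En d) 2 (mu Ω) → Lp ℝ 2 (mu Ω) × Lp (En d) 2 (mu Ω) := fun P =>
    (Lp.compMeasurePreserving (mv g) hmp P.1,
      L.compLpL 2 (mu Ω) (Lp.compMeasurePreserving (mv g) hmp P.2))
  have hc : Continuous Φ :=
    ((Lp.isometry_compMeasurePreserving hmp).continuous.comp continuous_fst).prodMk
      ((L.compLpL 2 (mu Ω)).continuous.comp
        ((Lp.isometry_compMeasurePreserving hmp).continuous.comp continuous_snd))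
  have hu1 : u =ᵐ[mu Ω] u := EventuallyEq.rfl
  have hmaps : MapsTo Φ {P | ∃ ψ, Tst Ω ψ ∧ P.1 =ᵐ[mu Ω] ψ ∧ P.2 =ᵐ[mu Ω] gradient ψ}
      {P | ∃ ψ, Tst Ω ψ ∧ P.1 =ᵐ[mu Ω] ψ ∧ P.2 =ᵐ[mu Ω] gradient ψ} := by
    rintro P ⟨ψ, hψ, h1, h2⟩
    obtain ⟨ht1, ht2⟩ := tgt d Ω g ψ hg hψ
    refine ⟨fun x => ψ (mv g x), ht1, ?_, ?_⟩
    · exact (Lp.coeFn_compMeasurePreserving P.1 hmp).trans
        (hmp.quasiMeasurePreserving.ae_eq_comp h1)
    · filter_upwards [L.coeFn_compLpL (p := 2) (Lp.compMeasurePreserving (mv g) hmp P.2),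
        Lp.coeFn_compMeasurePreserving P.2 hmp, hmp.quasiMeasurePreserving.ae_eq_comp h2]
        with x ha hb hc
      show (L.compLpL 2 (mu Ω) (Lp.compMeasurePreserving (mv g) hmp P.2)) x = _
      rw [ha, hb, ht2 x, hL]
      exact congrArg g.1.symm hc
  have h1 : Φ (u, F) ∈ H10 Ω := map_mem_closure hc hu hmaps
  have h2 : Φ (u, F) = (u', F') := by
    refine Prod.ext (Lp.ext ?_) (Lp.ext ?_)
    · exact (Lp.coeFn_compMeasurePreserving u hmp).trans hu'.symm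
    · filter_upwards [L.coeFn_compLpL (p := 2) (Lp.compMeasurePreserving (mv g) hmp F),
        Lp.coeFn_compMeasurePreserving F hmp, hF'] with x ha hb hc
      show (L.compLpL 2 (mu Ω) (Lp.compMeasurePreserving (mv g) hmp F)) x = _
      rw [ha, hb, hc, hL]
      rfl
  rwa [h2] at h1

end

end Pool.Agent.BEG.H29
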