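import Pool.Agent.BEG.Stmts
import Pool.Agent.Helper70_BE01.All

/-!
# Squad BEG (MP_be01ff_an), row WVK: the operators on a closed subspace (after Wvc2 of helper70 and
WVC of helper82)
-/

namespace Pool.Agent.BEG.H29

open Set Filter Topology MeasureTheory
open scoped InnerProductSpace ENNReal
open Pool.Agent.BE01 Pool.Agent.Helper82_BE01

noncomputable section

section abs

variable {V H : Type} [NormedAddCommGroup V] [InnerProductSpace ℝ V] [CompleteSpace V]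
  [NormedAddCommGroup H] [InnerProductSpace ℝ H] [CompleteSpace H]

/-- The restriction of a map to the elements with values in a subspace. -/
def rs (ι : V →L[ℝ] H) (K : Submodule ℝ H) :
    (K.comap (ι : V →ₗ[ℝ] H) : Submodule ℝ V) →L[ℝ] K :=
  (ι.comp (K.comap (ι : V →ₗ[ℝ] H) : Submodule ℝ V).subtypeL).codRestrict K (fun G => G.2)

omit [CompleteSpace V] [CompleteSpace H] in
theorem rs_apply (ι : V →L[ℝ] H) (K : Submodule ℝ H)
    (G : (K.comap (ι : V →ₗ[ℝ] H) : Submodule ℝ V)) :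
    ((rs ι K G : K) : H) = ι (G : V) := rfl

theorem res_adj (ι : V →L[ℝ] H) (T : H →L[ℝ] V) (hT : ∀ h G, ⟪T h, G⟫_ℝ = ⟪h, ι G⟫_ℝ)
    (K : Submodule ℝ H) [CompleteSpace K]
    [CompleteSpace (K.comap (ι : V →ₗ[ℝ] H) : Submodule ℝ V)]
    (hSK : ∀ h ∈ K, ι (T h) ∈ K) (h : K) :
    ((ContinuousLinearMap.adjoint (rs ι K) h :
      (K.comap (ι : V →ₗ[ℝ] H) : Submodule ℝ V)) : V) = T (h : H) := by
  have h1 : ContinuousLinearMap.adjoint (rs ι K) h =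
      (⟨T (h : H), hSK _ h.2⟩ : (K.comap (ι : V →ₗ[ℝ] H) : Submodule ℝ V)) := by
    apply ext_inner_right ℝ
    intro G
    rw [ContinuousLinearMap.adjoint_inner_left]
    exact (hT (h : H) (G : V)).symm
  rw [h1]

theorem res_op (ι : V →L[ℝ] H) (T : H →L[ℝ] V) (hT : ∀ h G, ⟪T h, G⟫_ℝ = ⟪h, ι G⟫_ℝ)
    (hdense : DenseRange ι) (K : Submodule ℝ H) (hK : IsClosed (K : Set H))
    (hSK : ∀ h ∈ K, ι (T h) ∈ K) (hcpt : IsCompactOperator (ι.comp T)) :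
    ∃ (S R : K →L[ℝ] K) (C Sn : ℝ → K →L[ℝ] K) (U : K →L[ℝ] V), Prp K S R C Sn ∧
      IsCompactOperator S ∧ (∀ h : K, ((S h : K) : H) = ι (T h)) ∧
      (∀ h : K, ((R h : K) : H) = ι (U h)) := by
  have hKc : CompleteSpace K := hK.completeSpace_coe
  have hVKcl : IsClosed ((K.comap (ι : V →ₗ[ℝ] H) : Submodule ℝ V) : Set V) :=
    hK.preimage ι.continuous
  have hVKc : CompleteSpace (K.comap (ι : V →ₗ[ℝ] H) : Submodule ℝ V) :=
    hVKcl.completeSpace_coe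
  have hSKe : ∀ h : K, ((((rs ι K).comp (ContinuousLinearMap.adjoint (rs ι K))) h : K) : H) =
      ι (T h) := by
    intro h
    show ι ((ContinuousLinearMap.adjoint (rs ι K) h :
      (K.comap (ι : V →ₗ[ℝ] H) : Submodule ℝ V)) : V) = ι (T h)
    rw [res_adj ι T hT K hSK]
  have hdK : DenseRange (rs ι K) := by
    have h1 : (LinearMap.range ((rs ι K) :
        (K.comap (ι : V →ₗ[ℝ] H) : Submodule ℝ V) →ₗ[ℝ] K)).topologicalClosure = ⊤ := by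
      rw [Submodule.topologicalClosure_eq_top_iff, Submodule.eq_bot_iff]
      intro g hg
      have h2 : ⟪rs ι K ⟨T (g : H), hSK _ g.2⟩, g⟫_ℝ = 0 := hg _ ⟨⟨T (g : H), hSK _ g.2⟩, rfl⟩
      have h3 : ⟪ι (T (g : H)), (g : H)⟫_ℝ = 0 := h2
      have h4 : ⟪T (g : H), T (g : H)⟫_ℝ = 0 := by
        rw [hT, real_inner_comm]
        exact h3
      have h5 : T (g : H) = 0 := inner_self_eq_zero.1 h4
      have h6 : (fun x : H => ⟪(g : H), x⟫_ℝ) = fun _ => 0 := by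
        refine hdense.equalizer (by fun_prop) continuous_const ?_
        funext G
        show ⟪(g : H), ι G⟫_ℝ = 0
        rw [← hT, h5, inner_zero_left]
      have h7 : ⟪(g : H), (g : H)⟫_ℝ = 0 := congrFun h6 _
      exact Subtype.ext (inner_self_eq_zero.1 h7)
    have h2 := (Submodule.dense_iff_topologicalClosure_eq_top).2 h1
    exact h2
  have hcK : IsCompactOperator ((rs ι K).comp (ContinuousLinearMap.adjoint (rs ι K))) := by
    have h1 := IsCompactOperator.restrict (f := ((ι.comp T : H →L[ℝ] H) : H →ₗ[ℝ] H))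
      hcpt (V := K) hSK hK
    have h2 : ((((ι.comp T : H →L[ℝ] H) : H →ₗ[ℝ] H).restrict hSK : K →ₗ[ℝ] K) : K → K) =
        ((rs ι K).comp (ContinuousLinearMap.adjoint (rs ι K))) := by
      funext h
      apply Subtype.ext
      exact (hSKe h).symm
    rw [← h2]
    exact h1
  obtain ⟨R, C, Sn, U, hprp, hU⟩ := Helper70BE01All.spc _ K (rs ι K) hdK hcK
  refine ⟨_, R, C, Sn, (K.comap (ι : V →ₗ[ℝ] H) : Submodule ℝ V).subtypeL.comp U, hprp, hcK,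
    hSKe, ?_⟩
  intro h
  rw [hU h]
  rfl

end abs

/-- WVK. -/
theorem wvk (alk : AlkStmt) : WvkStmt := by
  intro d Ω K hd hΩ hK
  have := mu_finite hΩ
  obtain ⟨ι, hι, hH10⟩ := Helper70BE01All.emb d Ω hd hΩ
  obtain ⟨C0, hC0, hsta⟩ := Helper70BE01All.sta d Ω ι hΩ hι
  obtain ⟨⟨J64, hJ64⟩, ⟨J42, hJ42⟩⟩ := BE01.H94.inc (En d) (mu Ω)
  obtain ⟨X, iX1, iX2, iX3, Y, A, hYc, hYm, hYj, hle, hlf, hmul, hone⟩ :=
    alk (En d) (mu Ω) K hK.closed hK.one hK.mul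
  have hVc : CompleteSpace (VV Ω) := by
    unfold VV
    exact Submodule.topologicalClosure.completeSpace _
  obtain ⟨ι2, hι2', hι2⟩ : ∃ ι2 : VV Ω →L[ℝ] Lp ℝ 2 (mu Ω), (∀ G, ι2 G = J42 (J64 (ι G))) ∧
      ∀ G, ι2 G =ᵐ[mu Ω] ι G :=
    ⟨J42.comp (J64.comp ι), fun G => rfl, fun G => (hJ42 _).trans (hJ64 _)⟩
  have hdense : DenseRange ι2 := by
    have h1 := BE01.H94.dns d Ω hΩ
    intro x
    have hx : x ∈ closure {f : Lp ℝ 2 (mu Ω) | ∃ ψ, Tst Ω ψ ∧ f =ᵐ[mu Ω] ψ} := by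
      rw [h1]; trivial
    refine closure_mono ?_ hx
    rintro f ⟨ψ, hψ, hf⟩
    obtain ⟨G, hG⟩ := exists_grad hψ
    refine ⟨G, ?_⟩
    apply Lp.ext
    exact (hι2 G).trans ((hι ψ hψ G hG).trans hf.symm)
  obtain ⟨T, hT⟩ : ∃ T : Lp ℝ 2 (mu Ω) →L[ℝ] VV Ω, ∀ (h : Lp ℝ 2 (mu Ω)) (G : VV Ω),
      ⟪T h, G⟫_ℝ = ⟪h, ι2 G⟫_ℝ :=
    ⟨ContinuousLinearMap.adjoint ι2, fun h G => ContinuousLinearMap.adjoint_inner_left ι2 G h⟩
  -- the weak equation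
  have hinner : ∀ (h : Lp ℝ 2 (mu Ω)) (ψ : En d → ℝ), Tst Ω ψ → ∀ G : VV Ω,
      (G : Lp (En d) 2 (mu Ω)) =ᵐ[mu Ω] gradient ψ →
      ⟪h, ι2 G⟫_ℝ = ∫ x, h x * ψ x ∂(mu Ω) := by
    intro h ψ hψ G hG
    rw [L2.inner_def]
    apply integral_congr_ae
    filter_upwards [(hι2 G).trans (hι ψ hψ G hG)] with x hx
    rw [hx]
    simp [mul_comm]
  have hinner2 : ∀ (F : Lp (En d) 2 (mu Ω)) (ψ : En d → ℝ), Tst Ω ψ → ∀ G : VV Ω,
      (G : Lp (En d) 2 (mu Ω)) =ᵐ[mu Ω] gradient ψ →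
      ⟪F, (G : Lp (En d) 2 (mu Ω))⟫_ℝ = ∫ x, ⟪F x, gradient ψ x⟫_ℝ ∂(mu Ω) := by
    intro F ψ hψ G hG
    rw [L2.inner_def]
    apply integral_congr_ae
    filter_upwards [hG] with x hx
    rw [hx]
  have hweak : ∀ h ψ, Tst Ω ψ → ∫ x, ⟪(T h : Lp (En d) 2 (mu Ω)) x, gradient ψ x⟫_ℝ ∂(mu Ω) =
      ∫ x, h x * ψ x ∂(mu Ω) := by
    intro h ψ hψ
    obtain ⟨G, hG⟩ := exists_grad hψ
    rw [← hinner2 _ ψ hψ G hG, ← hinner h ψ hψ G hG, ← hT]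
    rfl
  obtain ⟨S, hSdef⟩ : ∃ S : Lp ℝ 2 (mu Ω) →L[ℝ] Lp ℝ 2 (mu Ω), S = ι2.comp T := ⟨_, rfl⟩
  have hSa : ∀ h, S h = ι2 (T h) := fun h => by rw [hSdef]; rfl
  have hS : ∀ h, S h =ᵐ[mu Ω] ι (T h) := fun h => by
    rw [hSa]
    exact hι2 (T h)
  have hSb : ∀ h, ∀ᵐ z ∂(mu Ω), |S h z| ≤ C0 * ‖h‖ := by
    intro h
    filter_upwards [hS h, hsta h (T h) (hweak h)] with z h1 h2
    rw [h1]
    exact h2
  have hSH : ∀ h, (S h, ((T h : VV Ω) : Lp (En d) 2 (mu Ω))) ∈ H10 Ω := by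
    intro h
    rw [hH10]
    exact ⟨(T h).2, hS h⟩
  have hSK : ∀ h ∈ K, ι2 (T h) ∈ K := fun h hh => by
    rw [← hSa]
    exact hK.slv h hh (S h) ((T h : VV Ω) : Lp (En d) 2 (mu Ω)) (hSH h) (hweak h)
  have hcpt : IsCompactOperator S := BE01.H72.hsc (En d) (mu Ω) S C0 hC0.le hSb
  obtain ⟨SK, R, C, Sn, U, hprp, hcK, hSKe, hRe⟩ := res_op ι2 T hT hdense K hK.closed hSK
    (by rw [← hSdef]; exact hcpt)
  have hSKe' : ∀ h : K, ((SK h : K) : Lp ℝ 2 (mu Ω)) = S (h : Lp ℝ 2 (mu Ω)) := fun h => by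
    rw [hSKe, hSa]
  -- the lift to the algebra
  have hlift : ∀ h : K, ∃ x, A.e x = SK h ∧ ‖x‖ ≤ C0 * ‖h‖ := by
    intro h
    refine hlf _ (C0 * ‖h‖) (by positivity) ?_
    rw [hSKe' h]
    exact hSb (h : Lp ℝ 2 (mu Ω))
  choose sx hsx1 hsx2 using hlift
  have e_inj : Function.Injective A.e := A.j_inj.comp A.i_inj
  let SXl : K →ₗ[ℝ] X :=
    { toFun := sx
      map_add' := by
        intro x y
        apply e_inj
        rw [hsx1, map_add, map_add, hsx1, hsx1]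
      map_smul' := by
        intro r x
        apply e_inj
        rw [hsx1, map_smul, map_smul, hsx1]
        rfl }
  obtain ⟨SX, hSX⟩ : ∃ SX : K →L[ℝ] X, ∀ h, SX h = sx h :=
    ⟨SXl.mkContinuous C0 hsx2, fun h => rfl⟩
  have hUK : ∀ h : K, ι2 (U h) ∈ K := fun h => by
    rw [← hRe]
    exact (R h).2
  have hY0 : ∀ h : K, J64 (ι (U h)) ∈ Y := fun h => by
    refine hYm _ (ι2 (U h)) (hUK h) ?_
    rw [hι2']
    exact hJ42 _
  obtain ⟨RY, hRY⟩ : ∃ RY : K →L[ℝ] Y, ∀ h : K, ((RY h : Y) : Lp ℝ 4 (mu Ω)) =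
      J64 (ι (U h)) :=
    ⟨(J64.comp (ι.comp U)).codRestrict Y (fun h => hY0 h), fun h => rfl⟩
  have hjRY : ∀ h, A.j (RY h) = R h := by
    intro h
    apply Subtype.ext
    apply Lp.ext
    have h1 := hYj (RY h)
    rw [hRY] at h1
    rw [hRe, hι2']
    exact h1.trans (hJ42 _).symm
  have heSX : ∀ h, A.e (SX h) = SK h := fun h => by
    rw [hSX]
    exact hsx1 h
  have hA6 : ∀ (x : X) (C : ℝ), 0 ≤ C → (∀ᵐ z ∂(mu Ω), |((A.e x : K) : Lp ℝ 2 (mu Ω)) z| ≤ C) →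
      ‖x‖ ≤ C := by
    intro x C hC hx
    obtain ⟨x', hx1, hx2⟩ := hlf (A.e x) C hC hx
    rw [← e_inj hx1]
    exact hx2
  obtain ⟨Z, hZ⟩ : ∃ Z : K →L[ℝ] Lp (En d) 2 (mu Ω), ∀ h : K, Z h =
      ((T (h : Lp ℝ 2 (mu Ω)) : VV Ω) : Lp (En d) 2 (mu Ω)) :=
    ⟨(VV Ω).subtypeL.comp (T.comp K.subtypeL), fun h => rfl⟩
  refine ⟨X, iX1, iX2, iX3, Y, A,
    { S := SK, R := R, C := C, Sn := Sn, SX := SX, RY := RY, prp := hprp, e_SX := heSX,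
      j_RY := hjRY }, Z, hYc, hle, hA6, hmul, hone, hcK, ?_, ?_, ?_, ?_⟩
  · intro h
    show (((SK h : K) : Lp ℝ 2 (mu Ω)), Z h) ∈ H10 Ω
    rw [hSKe', hZ]
    exact hSH _
  · intro h
    show ‖Z h‖ ^ 2 = ⟪(h : Lp ℝ 2 (mu Ω)), ((SK h : K) : Lp ℝ 2 (mu Ω))⟫_ℝ
    rw [hZ, hSKe]
    have h1 : ‖((T (h : Lp ℝ 2 (mu Ω)) : VV Ω) : Lp (En d) 2 (mu Ω))‖ ^ 2 =
        ⟪T (h : Lp ℝ 2 (mu Ω)), T (h : Lp ℝ 2 (mu Ω))⟫_ℝ :=
      (real_inner_self_eq_norm_sq (T (h : Lp ℝ 2 (mu Ω)))).symm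
    rw [h1, hT]
  · intro h ψ hψ
    rw [hZ]
    exact hweak _ ψ hψ
  · intro l u
    have hiff : u = l • SK u ↔ (u : Lp ℝ 2 (mu Ω)) = l • S (u : Lp ℝ 2 (mu Ω)) := by
      rw [← hSKe']
      constructor
      · intro h
        exact congrArg Subtype.val h
      · intro h
        exact Subtype.ext h
    show IsEig Ω l (u : Lp ℝ 2 (mu Ω)) ↔ u = l • SK u
    rw [hiff]
    generalize (u : Lp ℝ 2 (mu Ω)) = u
    constructor
    · rintro ⟨G, hG1, hG2⟩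
      obtain ⟨hG, hu⟩ := (hH10 u G).1 hG1
      have hD : (⟨G, hG⟩ : VV Ω) - l • T u = 0 := by
        apply VV_eq_zero
        intro ψ hψ G' hG'
        have h3 : ⟪l • T u, G'⟫_ℝ = l * ⟪T u, G'⟫_ℝ := by
          show ⟪l • (T u : Lp (En d) 2 (mu Ω)), (G' : Lp (En d) 2 (mu Ω))⟫_ℝ =
            l * ⟪(T u : Lp (En d) 2 (mu Ω)), (G' : Lp (En d) 2 (mu Ω))⟫_ℝ
          rw [real_inner_smul_left]
        rw [inner_sub_left, h3, hT, hinner u ψ hψ G' hG']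
        have h1 : ⟪(⟨G, hG⟩ : VV Ω), G'⟫_ℝ = ∫ x, ⟪G x, gradient ψ x⟫_ℝ ∂(mu Ω) :=
          hinner2 G ψ hψ G' hG'
        rw [h1, hG2 ψ hψ, sub_self]
      have hu2 : u = ι2 ⟨G, hG⟩ := Lp.ext (hu.trans (hι2 _).symm)
      rw [sub_eq_zero] at hD
      calc u = ι2 ⟨G, hG⟩ := hu2
        _ = ι2 (l • T u) := by rw [hD]
        _ = l • S u := by rw [map_smul, hSa]
    · intro hu
      refine ⟨l • ((T u : VV Ω) : Lp (En d) 2 (mu Ω)), ?_, ?_⟩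
      · rw [hH10]
        refine ⟨(VV Ω).smul_mem l (T u).2, ?_⟩
        have h1 : u = ι2 (l • T u) := by
          calc u = l • S u := hu
            _ = ι2 (l • T u) := by rw [map_smul, hSa]
        have h2 := hι2 (l • T u)
        rw [← h1] at h2
        exact h2
      · intro ψ hψ
        rw [← hweak u ψ hψ, ← integral_const_mul]
        apply integral_congr_ae
        filter_upwards [Lp.coeFn_smul l ((T u : VV Ω) : Lp (En d) 2 (mu Ω))] with x hx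
        rw [hx, Pi.smul_apply, real_inner_smul_left]

end

end Pool.Agent.BEG.H29
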